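import Mathlib

/-! Zero forcing, propagation time, hypercubes. -/

namespace Pool.Agent.Q260.HQ

variable {V : Type}

/-- One round: every vertex that is the only neighbour outside `S` of some vertex of `S` is
added. -/
def step (G : SimpleGraph V) (S : Set V) : Set V :=
  S ∪ {w | w ∉ S ∧ ∃ v ∈ S, G.Adj v w ∧ ∀ u, G.Adj v u → u ∉ S → u = w}

/-- The set `S^{(t)}`. -/
def after (G : SimpleGraph V) (S : Set V) : ℕ → Set V
  | 0 => S
  | t + 1 => step G (after G S t)

/-- `S` is a zero forcing set. -/
def IsZFS (G : SimpleGraph V) (S : Set V) : Prop := ∃ t, after G S t = Set.univ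

/-- `S` is a minimum zero forcing set. -/
def IsMin (G : SimpleGraph V) (S : Set V) : Prop :=
  IsZFS G S ∧ ∀ T, IsZFS G T → S.ncard ≤ T.ncard

/-- The propagation time of a zero forcing set. -/
noncomputable def pt (G : SimpleGraph V) (S : Set V) : ℕ := sInf {t | after G S t = Set.univ}

/-- The propagation times of the minimum zero forcing sets. -/
def times (G : SimpleGraph V) : Set ℕ := {k | ∃ S, IsMin G S ∧ pt G S = k}

/-- `pt(G)`. -/
noncomputable def ptMin (G : SimpleGraph V) : ℕ := sInf (times G)

/-- `PT(G)`. -/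
noncomputable def ptMax (G : SimpleGraph V) : ℕ := sSup (times G)

/-- The hypercube `Q_d`: adjacent when they differ in exactly one coordinate. -/
def cube (d : ℕ) : SimpleGraph (Fin d → Bool) where
  Adj x y := (Finset.univ.filter fun i => x i ≠ y i).card = 1
  symm := ⟨fun x y h => by
    have : (Finset.univ.filter fun i => y i ≠ x i) = Finset.univ.filter fun i => x i ≠ y i := by
      ext i; simp [ne_comm]
    rw [this]; exact h⟩
  loopless := ⟨fun x h => by simp at h⟩

/-- change one coordinate -/
def flp {d : ℕ} (i : Fin d) (x : Fin d → Bool) : Fin d → Bool := Function.update x i (!x i)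

lemma flp_flp {d : ℕ} (i : Fin d) (x : Fin d → Bool) : flp i (flp i x) = x := by
  unfold flp
  simp

lemma flp_comm {d : ℕ} (i j : Fin d) (x : Fin d → Bool) :
    flp i (flp j x) = flp j (flp i x) := by
  by_cases h : i = j
  · rw [h]
  · unfold flp
    rw [Function.update_of_ne h, Function.update_of_ne (Ne.symm h), Function.update_comm h]

lemma flp_inj {d : ℕ} {i j : Fin d} {x : Fin d → Bool} (h : flp i x = flp j x) : i = j := by
  by_contra hij
  have := congrFun h i
  unfold flp at this
  rw [Function.update_self, Function.update_of_ne hij] at this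
  simp at this

lemma adj_iff {d : ℕ} (x y : Fin d → Bool) : (cube d).Adj x y ↔ ∃ i, y = flp i x := by
  change (Finset.univ.filter fun i => x i ≠ y i).card = 1 ↔ _
  rw [Finset.card_eq_one]
  constructor
  · rintro ⟨i, hi⟩
    refine ⟨i, ?_⟩
    ext j
    unfold flp
    by_cases hj : j = i
    · subst hj
      rw [Function.update_self]
      have : j ∈ (Finset.univ.filter fun i => x i ≠ y i) := by rw [hi]; simp
      have h2 : x j ≠ y j := (Finset.mem_filter.1 this).2
      revert h2
      cases x j <;> cases y j <;> simp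
    · rw [Function.update_of_ne hj]
      have : j ∉ (Finset.univ.filter fun i => x i ≠ y i) := by rw [hi]; simpa using hj
      by_contra h2
      exact this (Finset.mem_filter.2 ⟨Finset.mem_univ _, fun h3 => h2 h3.symm⟩)
  · rintro ⟨i, rfl⟩
    refine ⟨i, ?_⟩
    ext j
    simp only [Finset.mem_filter, Finset.mem_univ, true_and, Finset.mem_singleton]
    unfold flp
    by_cases hj : j = i
    · subst hj
      rw [Function.update_self]
      simp
    · rw [Function.update_of_ne hj]
      simp [hj]

/-- the adjacency operator over the field with two elements -/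
def AA (d : ℕ) : ((Fin d → Bool) → ZMod 2) →ₗ[ZMod 2] ((Fin d → Bool) → ZMod 2) where
  toFun f x := ∑ i, f (flp i x)
  map_add' f g := by
    ext x
    simp [Finset.sum_add_distrib]
  map_smul' c f := by
    ext x
    simp [Finset.mul_sum]

lemma AA_sq {d : ℕ} (hd : Even d) (f : (Fin d → Bool) → ZMod 2) : AA d (AA d f) = 0 := by
  ext x
  change ∑ i, ∑ j, f (flp j (flp i x)) = 0
  have h1 : ∑ i : Fin d, ∑ j, f (flp j (flp i x)) =
      ∑ p : Fin d × Fin d, f (flp p.2 (flp p.1 x)) := by
    rw [Fintype.sum_prod_type]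
  rw [h1, ← Finset.sum_filter_add_sum_filter_not Finset.univ (fun p : Fin d × Fin d => p.1 = p.2)]
  have h2 : ∑ p ∈ Finset.univ.filter (fun p : Fin d × Fin d => p.1 = p.2),
      f (flp p.2 (flp p.1 x)) = 0 := by
    have e1 : ∑ p ∈ Finset.univ.filter (fun p : Fin d × Fin d => p.1 = p.2),
        f (flp p.2 (flp p.1 x)) =
        ∑ p ∈ Finset.univ.filter (fun p : Fin d × Fin d => p.1 = p.2), f x := by
      refine Finset.sum_congr rfl fun p hp => ?_
      rw [(Finset.mem_filter.1 hp).2, flp_flp]
    have e2 : (Finset.univ.filter (fun p : Fin d × Fin d => p.1 = p.2)).card = d := by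
      have : Finset.univ.filter (fun p : Fin d × Fin d => p.1 = p.2) =
          Finset.univ.image (fun i : Fin d => (i, i)) := by
        ext ⟨a, b⟩
        simp [eq_comm]
      rw [this, Finset.card_image_of_injective _ (fun a b h => (Prod.ext_iff.1 h).1)]
      simp
    rw [e1, Finset.sum_const, e2]
    obtain ⟨k, hk⟩ := hd
    rw [hk, nsmul_eq_mul]
    push_cast
    have : (k : ZMod 2) + k = 0 := CharTwo.add_self_eq_zero _
    rw [this, zero_mul]
  have h3 : ∑ p ∈ Finset.univ.filter (fun p : Fin d × Fin d => ¬ p.1 = p.2),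
      f (flp p.2 (flp p.1 x)) = 0 := by
    refine Finset.sum_involution (fun p _ => (p.2, p.1)) ?_ ?_ ?_ ?_
    · intro p _
      change f (flp p.2 (flp p.1 x)) + f (flp p.1 (flp p.2 x)) = 0
      rw [flp_comm p.1 p.2]
      exact CharTwo.add_self_eq_zero _
    · intro p hp _ h
      exact (Finset.mem_filter.1 hp).2 (Prod.ext_iff.1 h).2
    · intro p hp
      exact Finset.mem_filter.2 ⟨Finset.mem_univ _, fun h => (Finset.mem_filter.1 hp).2 h.symm⟩
    · intro p _
      rfl
  rw [h2, h3, add_zero]

lemma finrank_ker {d : ℕ} (hd : Even d) :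
    2 ^ d ≤ 2 * Module.finrank (ZMod 2) (LinearMap.ker (AA d)) := by
  have h1 := LinearMap.finrank_range_add_finrank_ker (AA d)
  have h2 : LinearMap.range (AA d) ≤ LinearMap.ker (AA d) := by
    rintro _ ⟨f, rfl⟩
    rw [LinearMap.mem_ker]
    exact AA_sq hd f
  have h3 := Submodule.finrank_mono h2
  have h4 : Module.finrank (ZMod 2) ((Fin d → Bool) → ZMod 2) = 2 ^ d := by
    rw [Module.finrank_fintype_fun_eq_card]
    simp
  omega

lemma vanish {d : ℕ} (S : Set (Fin d → Bool)) (f : (Fin d → Bool) → ZMod 2) (hf : AA d f = 0)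
    (h : ∀ x ∈ S, f x = 0) (t : ℕ) : ∀ x ∈ after (cube d) S t, f x = 0 := by
  induction t with
  | zero => exact h
  | succ t ih =>
    rintro x (hx | ⟨hx, v, hv, hvx, huniq⟩)
    · exact ih x hx
    · have h1 := congrFun hf v
      change ∑ i, f (flp i v) = 0 at h1
      obtain ⟨i, rfl⟩ := (adj_iff v x).1 hvx
      rw [Finset.sum_eq_single i] at h1
      · exact h1
      · intro j _ hj
        apply ih
        by_contra hn
        have := huniq (flp j v) ((adj_iff _ _).2 ⟨j, rfl⟩) hn
        exact hj (flp_inj this)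
      · intro h; exact absurd (Finset.mem_univ _) h

/-- the zero forcing number of an even-dimensional cube is at least `2 ^ (d-1)` -/
theorem lower {d : ℕ} (hd : Even d) (S : Set (Fin d → Bool)) (hS : IsZFS (cube d) S) :
    2 ^ d ≤ 2 * S.ncard := by
  classical
  obtain ⟨t, ht⟩ := hS
  let R : LinearMap.ker (AA d) →ₗ[ZMod 2] (S → ZMod 2) :=
    { toFun := fun f x => f.1 x.1
      map_add' := fun f g => rfl
      map_smul' := fun c f => rfl }
  have hR : Function.Injective R := by
    rw [← LinearMap.ker_eq_bot, LinearMap.ker_eq_bot']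
    intro f hf
    apply Subtype.ext
    funext x
    refine vanish S f.1 (LinearMap.mem_ker.1 f.2) (fun y hy => ?_) t x (by rw [ht]; trivial)
    exact congrFun hf ⟨y, hy⟩
  have h1 := LinearMap.finrank_le_finrank_of_injective hR
  rw [Module.finrank_fintype_fun_eq_card] at h1
  have h2 : Fintype.card S = S.ncard := by
    rw [← Nat.card_eq_fintype_card]
    rfl
  have h3 := finrank_ker hd
  omega

end Pool.Agent.Q260.HQ
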